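import Pool.Agent.Lib.MP_4fbe7c_an.ND.Iface

/-! Project ND: basic facts about domains, `C1` functions and evolutions (helper54). -/

set_option autoImplicit false

open Set MeasureTheory Filter Topology

namespace Pool.Agent.Lib.MP_4fbe7c_an.ND

variable {p : ℕ} {Ω : Set (Eu p)} {q : Eu p → ℝ}

namespace Dom

theorem cont (h : Dom Ω q) : Continuous q := h.smooth.continuous

theorem isOpen (h : Dom Ω q) : IsOpen Ω := by
  rw [h.eq]
  exact isOpen_lt h.cont continuous_const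

theorem differentiable (h : Dom Ω q) : Differentiable ℝ q :=
  h.smooth.differentiable (by norm_num)

theorem hasGradientAt (h : Dom Ω q) (x : Eu p) : HasGradientAt q (gradient q x) x :=
  (h.differentiable x).hasGradientAt

/-- The derivative of `q` along a line. -/
theorem hasDerivAt_line (h : Dom Ω q) (x e : Eu p) (s : ℝ) :
    HasDerivAt (fun s : ℝ => q (x + s • e)) (inner ℝ (gradient q (x + s • e)) e) s := by
  have h1 := (h.hasGradientAt (x + s • e)).hasFDerivAt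
  have h2 : HasDerivAt (fun s : ℝ => x + s • e) e s := by
    have := ((hasDerivAt_id s).smul_const e).const_add x
    simpa using this
  have h3 := h1.comp_hasDerivAt s h2
  rw [InnerProductSpace.toDual_apply_apply] at h3
  exact h3

/-- Inward directions lead into the domain. -/
theorem eventually_mem (h : Dom Ω q) {x e : Eu p} (hx : q x = 0)
    (he : inner ℝ (gradient q x) e < 0) : ∀ᶠ s in 𝓝[>] (0 : ℝ), x + s • e ∈ Ω := by
  have h1 := h.hasDerivAt_line x e 0
  simp only [zero_smul, add_zero] at h1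
  have h2 := h1.hasDerivWithinAt (s := Ioi 0)
  rw [hasDerivWithinAt_iff_tendsto_slope' (by simp)] at h2
  have h3 := h2.eventually_lt_const he
  filter_upwards [h3, self_mem_nhdsWithin] with s hs hs0
  rw [h.eq]
  simp only [mem_Ioi] at hs0
  rw [slope_def_field] at hs
  simp only [zero_smul, add_zero, sub_zero, hx] at hs
  simp only [mem_ofPred_eq]
  by_contra hc
  push Not at hc
  have := div_nonneg hc hs0.le
  linarith

theorem closure_eq (h : Dom Ω q) : closure Ω = {x | q x ≤ 0} := by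
  apply Subset.antisymm
  · have : Ω ⊆ {x | q x ≤ 0} := by
      rw [h.eq]
      intro x hx
      exact le_of_lt (show q x < 0 from hx)
    exact closure_minimal this (isClosed_le h.cont continuous_const)
  · intro x hx
    rcases lt_or_eq_of_le (show q x ≤ 0 from hx) with h1 | h1
    · apply subset_closure
      rw [h.eq]
      exact h1
    · have hg := h.grad x h1
      have h2 : inner ℝ (gradient q x) (-gradient q x) < 0 := by
        rw [inner_neg_right, real_inner_self_eq_norm_sq]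
        have : 0 < ‖gradient q x‖ := norm_pos_iff.mpr hg
        nlinarith
      have h3 := h.eventually_mem h1 h2
      rw [mem_closure_iff_nhds]
      intro t ht
      have h4 : Tendsto (fun s : ℝ => x + s • (-gradient q x)) (𝓝[>] 0) (𝓝 x) := by
        have h5 : Continuous (fun s : ℝ => x + s • (-gradient q x)) := by fun_prop
        have h6 := h5.tendsto 0
        simp only [zero_smul, add_zero] at h6
        exact h6.mono_left nhdsWithin_le_nhds
      have h5 := h4.eventually ht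
      obtain ⟨s, hs1, hs2⟩ := (h3.and h5).exists
      exact ⟨_, hs2, hs1⟩

theorem mem_closure_iff (h : Dom Ω q) {x : Eu p} : x ∈ closure Ω ↔ q x ≤ 0 := by
  rw [h.closure_eq]
  rfl

theorem mem_iff (h : Dom Ω q) {x : Eu p} : x ∈ Ω ↔ q x < 0 := by
  conv_lhs => rw [h.eq]
  rfl

theorem frontier_eq (h : Dom Ω q) : frontier Ω = {x | q x = 0} := by
  rw [frontier, h.isOpen.interior_eq]
  ext x
  simp only [Set.mem_sdiff, h.mem_closure_iff, h.mem_iff, mem_ofPred_eq]
  constructor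
  · rintro ⟨h1, h2⟩
    exact le_antisymm h1 (not_lt.mp h2)
  · intro h1
    exact ⟨h1.le, by rw [h1]; exact lt_irrefl 0⟩

theorem mem_frontier_iff (h : Dom Ω q) {x : Eu p} : x ∈ frontier Ω ↔ q x = 0 := by
  rw [h.frontier_eq]
  rfl

theorem frontier_subset (_h : Dom Ω q) : frontier Ω ⊆ closure Ω := frontier_subset_closure

theorem mem_or_frontier (h : Dom Ω q) {x : Eu p} (hx : x ∈ closure Ω) :
    x ∈ Ω ∨ x ∈ frontier Ω := by
  rw [h.mem_closure_iff] at hx
  rcases lt_or_eq_of_le hx with h1 | h1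
  · exact Or.inl (h.mem_iff.mpr h1)
  · exact Or.inr (h.mem_frontier_iff.mpr h1)

theorem isCompact (h : Dom Ω q) : IsCompact (closure Ω) := h.bdd.isCompact_closure

theorem nonempty (h : Dom Ω q) : Ω.Nonempty := h.conn.nonempty

theorem closure_nonempty (h : Dom Ω q) : (closure Ω).Nonempty := h.nonempty.closure

theorem measurableSet (h : Dom Ω q) : MeasurableSet Ω := h.isOpen.measurableSet

theorem volume_lt_top (h : Dom Ω q) : volume Ω < ⊤ := h.bdd.measure_lt_top

theorem volume_pos (h : Dom Ω q) : 0 < volume Ω := h.isOpen.measure_pos volume h.nonempty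

theorem volume_real_pos (h : Dom Ω q) : 0 < volume.real Ω :=
  ENNReal.toReal_pos h.volume_pos.ne' h.volume_lt_top.ne

/-- A continuous function on the closure is integrable on `Ω`. -/
theorem integrableOn (h : Dom Ω q) {E : Type*} [NormedAddCommGroup E] {f : Eu p → E}
    (hf : ContinuousOn f (closure Ω)) : IntegrableOn f Ω :=
  (hf.integrableOn_compact h.isCompact).mono_set subset_closure

/-- A continuous function on the closure is bounded. -/
theorem exists_bound (h : Dom Ω q) {E : Type*} [NormedAddCommGroup E] {f : Eu p → E}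
    (hf : ContinuousOn f (closure Ω)) : ∃ C : ℝ, 0 < C ∧ ∀ x ∈ closure Ω, ‖f x‖ ≤ C := by
  obtain ⟨C, hC⟩ := h.isCompact.exists_bound_of_continuousOn hf
  exact ⟨max C 1, lt_max_of_lt_right one_pos, fun x hx => (hC x hx).trans (le_max_left _ _)⟩

/-- A positive continuous function on the closure has a positive lower bound. -/
theorem exists_pos_le (h : Dom Ω q) {f : Eu p → ℝ} (hf : ContinuousOn f (closure Ω))
    (hp : ∀ x ∈ closure Ω, 0 < f x) : ∃ c : ℝ, 0 < c ∧ ∀ x ∈ closure Ω, c ≤ f x := by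
  obtain ⟨x, hx, hm⟩ := h.isCompact.exists_isMinOn h.closure_nonempty hf
  exact ⟨f x, hp x hx, fun y hy => hm hy⟩

theorem continuous_gradient (h : Dom Ω q) : Continuous (gradient q) := by
  have h1 : Continuous (fderiv ℝ q) := h.smooth.continuous_fderiv (by norm_num)
  have h2 : gradient q = fun x => (InnerProductSpace.toDual ℝ (Eu p)).symm (fderiv ℝ q x) := rfl
  rw [h2]
  exact (InnerProductSpace.toDual ℝ (Eu p)).symm.continuous.comp h1

theorem contDiff_gradient (h : Dom Ω q) : ContDiff ℝ 1 (gradient q) := by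
  have h1 : ContDiff ℝ 1 (fderiv ℝ q) := h.smooth.fderiv_right (by norm_num)
  have h2 : gradient q = fun x => (InnerProductSpace.toDual ℝ (Eu p)).symm (fderiv ℝ q x) := rfl
  rw [h2]
  exact (InnerProductSpace.toDual ℝ (Eu p)).symm.contDiff.comp h1

end Dom

/-! ### Derivatives along lines -/

namespace C1

variable {f : Eu p → ℝ} {f' : Eu p → Eu p}

theorem hasDerivAt_line (h : C1 Ω f f') {x e : Eu p} {s : ℝ} (hs : x + s • e ∈ Ω) :
    HasDerivAt (fun s : ℝ => f (x + s • e)) (inner ℝ (f' (x + s • e)) e) s := by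
  have h1 := (h.d1 _ hs).hasFDerivAt
  have h2 : HasDerivAt (fun s : ℝ => x + s • e) e s := by
    have := ((hasDerivAt_id s).smul_const e).const_add x
    simpa using this
  have h3 := h1.comp_hasDerivAt s h2
  rw [InnerProductSpace.toDual_apply_apply] at h3
  exact h3

end C1

/-- One-sided derivative at a point of the closure along a direction which leads into the
domain. -/
theorem hasDerivWithinAt_ray {g : ℝ → ℝ} {g' : ℝ → ℝ} {s₀ : ℝ} (h0 : 0 < s₀)
    (hc : ContinuousOn g (Ico 0 s₀)) (hc' : ContinuousWithinAt g' (Ici 0) 0)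
    (hd : ∀ s ∈ Ioo 0 s₀, HasDerivAt g (g' s) s) : HasDerivWithinAt g (g' 0) (Ici 0) 0 := by
  have h1 : Tendsto g' (𝓝[>] 0) (𝓝 (g' 0)) :=
    hc'.tendsto.mono_left (nhdsWithin_mono _ Ioi_subset_Ici_self)
  refine hasDerivWithinAt_Ici_of_tendsto_deriv (s := Ioo 0 s₀)
    (fun s hs => (hd s hs).differentiableAt.differentiableWithinAt) ?_ ?_ ?_
  · exact (hc 0 ⟨le_refl 0, h0⟩).mono Ioo_subset_Ico_self
  · exact Ioo_mem_nhdsGT h0
  · refine h1.congr' ?_
    filter_upwards [Ioo_mem_nhdsGT h0] with s hs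
    exact ((hd s hs).deriv).symm

/-- The derivative of a `C1` function at a boundary point along an inward direction. -/
theorem C1.hasDerivWithinAt_inward {f : Eu p → ℝ} {f' : Eu p → Eu p} (hΩ : Dom Ω q)
    (h : C1 Ω f f') {x e : Eu p} (hx : x ∈ closure Ω)
    (he : ∀ᶠ s in 𝓝[>] (0 : ℝ), x + s • e ∈ Ω) :
    HasDerivWithinAt (fun s : ℝ => f (x + s • e)) (inner ℝ (f' x) e) (Ici 0) 0 := by
  have _ := hΩ
  obtain ⟨s₀, hs₀, hs⟩ := mem_nhdsGT_iff_exists_Ioo_subset.mp he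
  have hs0 : 0 < s₀ := hs₀
  have hline : Continuous (fun s : ℝ => x + s • e) := by fun_prop
  have hmem : ∀ s ∈ Ico (0 : ℝ) s₀, x + s • e ∈ closure Ω := by
    intro s hs1
    rcases eq_or_lt_of_le hs1.1 with h1 | h1
    · rw [← h1]
      simpa using hx
    · exact subset_closure (hs ⟨h1, hs1.2⟩)
  have hmem' : Ico (0 : ℝ) s₀ ⊆ (fun s : ℝ => x + s • e) ⁻¹' closure Ω := hmem
  have hc : ContinuousOn (fun s : ℝ => f (x + s • e)) (Ico 0 s₀) :=
    h.c0.comp hline.continuousOn hmem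
  have hg : ContinuousOn (fun s : ℝ => f' (x + s • e)) (Ico 0 s₀) :=
    h.c1.comp hline.continuousOn hmem
  have hg' : ContinuousOn (fun s : ℝ => inner ℝ (f' (x + s • e)) e) (Ico 0 s₀) :=
    hg.inner continuousOn_const
  have hw : ContinuousWithinAt (fun s : ℝ => inner ℝ (f' (x + s • e)) e) (Ici 0) 0 :=
    (hg' 0 ⟨le_refl 0, hs0⟩).mono_of_mem_nhdsWithin (Ico_mem_nhdsGE hs0)
  have h1 := hasDerivWithinAt_ray hs0 hc hw (fun s hs1 => h.hasDerivAt_line (hs hs1))
  simpa using h1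

/-- Interior points: all directions lead into the domain. -/
theorem Dom.eventually_mem_of_mem (h : Dom Ω q) {x : Eu p} (hx : x ∈ Ω) (e : Eu p) :
    ∀ᶠ s in 𝓝 (0 : ℝ), x + s • e ∈ Ω := by
  have hline : Continuous (fun s : ℝ => x + s • e) := by fun_prop
  have h1 : (fun s : ℝ => x + s • e) 0 ∈ Ω := by simpa using hx
  exact hline.continuousAt.eventually (h.isOpen.mem_nhds h1)

/-! ### Algebra of classes -/

theorem C1.const (c : ℝ) : C1 Ω (fun _ => c) (fun _ => 0) :=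
  ⟨continuousOn_const, continuousOn_const, fun x _ => hasGradientAt_const x c⟩

theorem hasGradientAt_iff_fderiv {f : Eu p → ℝ} {v x : Eu p} :
    HasGradientAt f v x ↔ HasFDerivAt f (innerSL ℝ v) x := Iff.rfl

theorem HasGradientAt.add' {f g : Eu p → ℝ} {v w x : Eu p} (hf : HasGradientAt f v x)
    (hg : HasGradientAt g w x) : HasGradientAt (fun x => f x + g x) (v + w) x := by
  rw [hasGradientAt_iff_fderiv] at *
  have e : innerSL ℝ (v + w) = innerSL ℝ v + innerSL ℝ w := map_add _ _ _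
  rw [e]
  exact hf.add hg

theorem HasGradientAt.sub' {f g : Eu p → ℝ} {v w x : Eu p} (hf : HasGradientAt f v x)
    (hg : HasGradientAt g w x) : HasGradientAt (fun x => f x - g x) (v - w) x := by
  rw [hasGradientAt_iff_fderiv] at *
  have e : innerSL ℝ (v - w) = innerSL ℝ v - innerSL ℝ w := map_sub _ _ _
  rw [e]
  exact hf.sub hg

theorem HasGradientAt.const_mul' {f : Eu p → ℝ} {v x : Eu p} (c : ℝ)
    (hf : HasGradientAt f v x) : HasGradientAt (fun x => c * f x) (c • v) x := by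
  rw [hasGradientAt_iff_fderiv] at *
  have e : innerSL ℝ (c • v) = c • innerSL ℝ v := by
    ext y
    simp
  rw [e]
  exact hf.const_mul c

theorem HasGradientAt.mul' {f g : Eu p → ℝ} {v w x : Eu p} (hf : HasGradientAt f v x)
    (hg : HasGradientAt g w x) : HasGradientAt (fun x => f x * g x) (f x • w + g x • v) x := by
  rw [hasGradientAt_iff_fderiv] at *
  have e : innerSL ℝ (f x • w + g x • v) = f x • innerSL ℝ w + g x • innerSL ℝ v := by
    ext y
    simp
  rw [e]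
  exact hf.mul hg

theorem HasGradientAt.comp' {φ : ℝ → ℝ} {φ' : ℝ} {f : Eu p → ℝ} {v x : Eu p}
    (hφ : HasDerivAt φ φ' (f x)) (hf : HasGradientAt f v x) :
    HasGradientAt (fun x => φ (f x)) (φ' • v) x := by
  rw [hasGradientAt_iff_fderiv] at *
  have e : innerSL ℝ (φ' • v) = φ' • innerSL ℝ v := by
    ext y
    simp
  rw [e]
  exact hφ.comp_hasFDerivAt x hf

theorem C1.add {f g : Eu p → ℝ} {f' g' : Eu p → Eu p} (hf : C1 Ω f f') (hg : C1 Ω g g') :
    C1 Ω (fun x => f x + g x) (fun x => f' x + g' x) :=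
  ⟨hf.c0.add hg.c0, hf.c1.add hg.c1, fun x hx => HasGradientAt.add' (hf.d1 x hx) (hg.d1 x hx)⟩

theorem C1.sub {f g : Eu p → ℝ} {f' g' : Eu p → Eu p} (hf : C1 Ω f f') (hg : C1 Ω g g') :
    C1 Ω (fun x => f x - g x) (fun x => f' x - g' x) :=
  ⟨hf.c0.sub hg.c0, hf.c1.sub hg.c1, fun x hx => HasGradientAt.sub' (hf.d1 x hx) (hg.d1 x hx)⟩

theorem C1.const_mul {f : Eu p → ℝ} {f' : Eu p → Eu p} (c : ℝ) (hf : C1 Ω f f') :
    C1 Ω (fun x => c * f x) (fun x => c • f' x) :=
  ⟨continuousOn_const.mul hf.c0, hf.c1.const_smul c,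
    fun x hx => HasGradientAt.const_mul' c (hf.d1 x hx)⟩

theorem C1.mul {f g : Eu p → ℝ} {f' g' : Eu p → Eu p} (hf : C1 Ω f f') (hg : C1 Ω g g') :
    C1 Ω (fun x => f x * g x) (fun x => f x • g' x + g x • f' x) :=
  ⟨hf.c0.mul hg.c0, (hf.c0.smul hg.c1).add (hg.c0.smul hf.c1),
    fun x hx => HasGradientAt.mul' (hf.d1 x hx) (hg.d1 x hx)⟩

theorem C1.sum {ι : Type*} (s : Finset ι) {f : ι → Eu p → ℝ} {f' : ι → Eu p → Eu p}
    (hf : ∀ i ∈ s, C1 Ω (f i) (f' i)) :
    C1 Ω (fun x => ∑ i ∈ s, f i x) (fun x => ∑ i ∈ s, f' i x) := by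
  classical
  induction s using Finset.induction_on with
  | empty => simpa using C1.const (Ω := Ω) 0
  | insert a s ha ih =>
    simp only [Finset.sum_insert ha]
    exact (hf a (Finset.mem_insert_self a s)).add
      (ih fun i hi => hf i (Finset.mem_insert_of_mem hi))

theorem Neu.add {f' g' : Eu p → Eu p} (hf : Neu Ω q f') (hg : Neu Ω q g') :
    Neu Ω q (fun x => f' x + g' x) := by
  intro x hx
  rw [inner_add_left, hf x hx, hg x hx, add_zero]

theorem Neu.sub {f' g' : Eu p → Eu p} (hf : Neu Ω q f') (hg : Neu Ω q g') :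
    Neu Ω q (fun x => f' x - g' x) := by
  intro x hx
  rw [inner_sub_left, hf x hx, hg x hx, sub_zero]

theorem Neu.smul {f' : Eu p → Eu p} (c : Eu p → ℝ) (hf : Neu Ω q f') :
    Neu Ω q (fun x => c x • f' x) := by
  intro x hx
  rw [real_inner_smul_left, hf x hx, mul_zero]

theorem Neu.sum {ι : Type*} (s : Finset ι) {f' : ι → Eu p → Eu p}
    (hf : ∀ i ∈ s, Neu Ω q (f' i)) : Neu Ω q (fun x => ∑ i ∈ s, f' i x) := by
  intro x hx
  rw [sum_inner]
  exact Finset.sum_eq_zero fun i hi => hf i hi x hx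

theorem Neu.zero : Neu Ω q (fun _ => (0 : Eu p)) := fun x _ => by simp

/-! ### The trace -/

theorem tr_add (A B : Eu p →L[ℝ] Eu p) : tr (A + B) = tr A + tr B := by
  simp [tr, Finset.sum_add_distrib]

theorem tr_sub (A B : Eu p →L[ℝ] Eu p) : tr (A - B) = tr A - tr B := by
  simp [tr, Finset.sum_sub_distrib]

theorem tr_smul (c : ℝ) (A : Eu p →L[ℝ] Eu p) : tr (c • A) = c * tr A := by
  simp [tr, Finset.mul_sum]

theorem tr_zero : tr (0 : Eu p →L[ℝ] Eu p) = 0 := by simp [tr]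

theorem tr_sum {ι : Type*} (s : Finset ι) (A : ι → Eu p →L[ℝ] Eu p) :
    tr (∑ i ∈ s, A i) = ∑ i ∈ s, tr (A i) := by
  classical
  induction s using Finset.induction_on with
  | empty => simp [tr_zero]
  | insert a s ha ih => rw [Finset.sum_insert ha, Finset.sum_insert ha, tr_add, ih]

theorem continuous_tr : Continuous (fun A : Eu p →L[ℝ] Eu p => tr A) := by
  unfold tr
  fun_prop

/-- The trace of a rank one map: `tr (v ↦ ⟨a, v⟩ b) = ⟨a, b⟩`. -/
theorem tr_smulRight (a b : Eu p) : tr ((innerSL ℝ a).smulRight b) = inner ℝ a b := by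
  simp only [tr, ContinuousLinearMap.smulRight_apply, PiLp.smul_apply, smul_eq_mul,
    innerSL_apply_apply, EuclideanSpace.inner_single_right]
  simp [PiLp.inner_apply, mul_comm]

/-! ### Evolutions -/

theorem Evo.C1 {z : ℝ → Eu p → ℝ} {g : ℝ → Eu p → Eu p} {H : ℝ → Eu p → Eu p →L[ℝ] Eu p}
    {z' : ℝ → Eu p → ℝ} (h : Evo Ω q z g H z') {t : ℝ} (ht : 0 < t) :
    C1 Ω (z t) (g t) := by
  have h1 : Continuous (fun x : Eu p => (t, x)) := by fun_prop
  refine ⟨?_, ?_, h.dx t ht⟩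
  · exact h.cz.comp h1.continuousOn (fun x hx => ⟨ht.le, hx⟩)
  · exact h.cg.comp h1.continuousOn (fun x hx => ⟨ht, hx⟩)

theorem Evo.C2 {z : ℝ → Eu p → ℝ} {g : ℝ → Eu p → Eu p} {H : ℝ → Eu p → Eu p →L[ℝ] Eu p}
    {z' : ℝ → Eu p → ℝ} (h : Evo Ω q z g H z') {t : ℝ} (ht : 0 < t) :
    C2 Ω (z t) (g t) (H t) := by
  have h1 : Continuous (fun x : Eu p => (t, x)) := by fun_prop
  refine ⟨h.C1 ht, ?_, h.dxx t ht⟩
  exact h.cH.comp h1.continuousOn (fun x hx => ⟨ht, hx⟩)

theorem Evo.c0 {z : ℝ → Eu p → ℝ} {g : ℝ → Eu p → Eu p} {H : ℝ → Eu p → Eu p →L[ℝ] Eu p}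
    {z' : ℝ → Eu p → ℝ} (h : Evo Ω q z g H z') {t : ℝ} (ht : 0 ≤ t) :
    ContinuousOn (z t) (closure Ω) := by
  have h1 : Continuous (fun x : Eu p => (t, x)) := by fun_prop
  exact h.cz.comp h1.continuousOn (fun x hx => ⟨ht, hx⟩)

/-- Time shift. -/
theorem Evo.shift {z : ℝ → Eu p → ℝ} {g : ℝ → Eu p → Eu p} {H : ℝ → Eu p → Eu p →L[ℝ] Eu p}
    {z' : ℝ → Eu p → ℝ} (h : Evo Ω q z g H z') {s : ℝ} (hs : 0 ≤ s) :
    Evo Ω q (fun t => z (s + t)) (fun t => g (s + t)) (fun t => H (s + t))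
      (fun t => z' (s + t)) := by
  have h1 : Continuous (fun a : ℝ × Eu p => (s + a.1, a.2)) := by fun_prop
  have h2 : MapsTo (fun a : ℝ × Eu p => (s + a.1, a.2)) (Ioi 0 ×ˢ closure Ω)
      (Ioi 0 ×ˢ closure Ω) := fun a ha => ⟨add_pos_of_nonneg_of_pos hs ha.1, ha.2⟩
  have h3 : MapsTo (fun a : ℝ × Eu p => (s + a.1, a.2)) (Ici 0 ×ˢ closure Ω)
      (Ici 0 ×ˢ closure Ω) := fun a ha => ⟨add_nonneg hs ha.1, ha.2⟩
  refine ⟨h.cz.comp h1.continuousOn h3, h.cg.comp h1.continuousOn h2,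
    h.cH.comp h1.continuousOn h2, h.cz'.comp h1.continuousOn h2, ?_, ?_, ?_, ?_⟩
  · exact fun t ht => h.dx _ (add_pos_of_nonneg_of_pos hs ht)
  · exact fun t ht => h.dxx _ (add_pos_of_nonneg_of_pos hs ht)
  · intro t ht x hx
    have h4 := h.dt _ (add_pos_of_nonneg_of_pos hs ht) x hx
    have h5 : HasDerivAt (fun t : ℝ => s + t) 1 t := (hasDerivAt_id t).const_add s
    have h6 := HasDerivAt.comp t h4 h5
    rw [mul_one] at h6
    exact h6
  · exact fun t ht => h.neu _ (add_pos_of_nonneg_of_pos hs ht)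

/-- Linear combinations. -/
theorem Evo.lin {z₁ z₂ : ℝ → Eu p → ℝ} {g₁ g₂ : ℝ → Eu p → Eu p}
    {H₁ H₂ : ℝ → Eu p → Eu p →L[ℝ] Eu p} {z₁' z₂' : ℝ → Eu p → ℝ}
    (h₁ : Evo Ω q z₁ g₁ H₁ z₁') (h₂ : Evo Ω q z₂ g₂ H₂ z₂') (a b : ℝ) :
    Evo Ω q (fun t x => a * z₁ t x + b * z₂ t x) (fun t x => a • g₁ t x + b • g₂ t x)
      (fun t x => a • H₁ t x + b • H₂ t x) (fun t x => a * z₁' t x + b * z₂' t x) := by
  constructor
  · exact (continuousOn_const.mul h₁.cz).add (continuousOn_const.mul h₂.cz)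
  · exact (h₁.cg.const_smul a).add (h₂.cg.const_smul b)
  · exact (h₁.cH.const_smul a).add (h₂.cH.const_smul b)
  · exact (continuousOn_const.mul h₁.cz').add (continuousOn_const.mul h₂.cz')
  · intro t ht x hx
    exact HasGradientAt.add' (HasGradientAt.const_mul' a (h₁.dx t ht x hx))
      (HasGradientAt.const_mul' b (h₂.dx t ht x hx))
  · intro t ht x hx
    exact ((h₁.dxx t ht x hx).const_smul a).add ((h₂.dxx t ht x hx).const_smul b)
  · intro t ht x hx
    exact ((h₁.dt t ht x hx).const_mul a).add ((h₂.dt t ht x hx).const_mul b)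
  · intro t ht
    exact Neu.add (Neu.smul (fun _ => a) (h₁.neu t ht)) (Neu.smul (fun _ => b) (h₂.neu t ht))

/-- A function of `x` alone. -/
theorem C2.evo {f : Eu p → ℝ} {f' : Eu p → Eu p} {H : Eu p → Eu p →L[ℝ] Eu p}
    (h : C2 Ω f f' H) (hn : Neu Ω q f') :
    Evo Ω q (fun _ => f) (fun _ => f') (fun _ => H) (fun _ _ => 0) := by
  have h2 : MapsTo (fun a : ℝ × Eu p => a.2) (Ioi 0 ×ˢ closure Ω) (closure Ω) :=
    fun a ha => ha.2
  have h3 : MapsTo (fun a : ℝ × Eu p => a.2) (Ici 0 ×ˢ closure Ω) (closure Ω) :=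
    fun a ha => ha.2
  refine ⟨h.toC1.c0.comp continuous_snd.continuousOn h3,
    h.toC1.c1.comp continuous_snd.continuousOn h2, h.c2.comp continuous_snd.continuousOn h2,
    continuousOn_const, fun _ _ => h.toC1.d1, fun _ _ => h.d2,
    fun t _ x _ => hasDerivAt_const t (f x), fun _ _ => hn⟩

/-- A constant. -/
theorem Evo.const (c : ℝ) :
    Evo Ω q (fun _ _ => c) (fun _ _ => (0 : Eu p)) (fun _ _ => 0) (fun _ _ => 0) :=
  ⟨continuousOn_const, continuousOn_const, continuousOn_const, continuousOn_const,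
    fun _ _ x _ => hasGradientAt_const x c, fun _ _ x _ => hasFDerivAt_const 0 x,
    fun t _ _ _ => hasDerivAt_const t c, fun _ _ => Neu.zero⟩

/-- Change of the time derivative to an equal function. -/
theorem Evo.congr' {z : ℝ → Eu p → ℝ} {g : ℝ → Eu p → Eu p} {H : ℝ → Eu p → Eu p →L[ℝ] Eu p}
    {z' z'' : ℝ → Eu p → ℝ} (h : Evo Ω q z g H z')
    (he : ∀ t, 0 < t → ∀ x ∈ closure Ω, z'' t x = z' t x) : Evo Ω q z g H z'' := by
  refine ⟨h.cz, h.cg, h.cH, ?_, h.dx, h.dxx, ?_, h.neu⟩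
  · exact h.cz'.congr fun a ha => he a.1 ha.1 a.2 ha.2
  · intro t ht x hx
    rw [he t ht x hx]
    exact h.dt t ht x hx

/-- Bounds on `[0, T] × closure Ω`. -/
theorem Dom.exists_bound₂ (h : Dom Ω q) {E : Type*} [NormedAddCommGroup E]
    {F : ℝ × Eu p → E} {a b : ℝ} (hF : ContinuousOn F (Icc a b ×ˢ closure Ω)) :
    ∃ C : ℝ, 0 < C ∧ ∀ t ∈ Icc a b, ∀ x ∈ closure Ω, ‖F (t, x)‖ ≤ C := by
  obtain ⟨C, hC⟩ := (isCompact_Icc.prod h.isCompact).exists_bound_of_continuousOn hF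
  exact ⟨max C 1, lt_max_of_lt_right one_pos,
    fun t ht x hx => (hC (t, x) ⟨ht, hx⟩).trans (le_max_left _ _)⟩

theorem Evo.exists_bound (hΩ : Dom Ω q) {z : ℝ → Eu p → ℝ} {g : ℝ → Eu p → Eu p}
    {H : ℝ → Eu p → Eu p →L[ℝ] Eu p} {z' : ℝ → Eu p → ℝ} (h : Evo Ω q z g H z') (T : ℝ) :
    ∃ C : ℝ, 0 < C ∧ ∀ t, 0 ≤ t → t ≤ T → ∀ x ∈ closure Ω, |z t x| ≤ C := by
  have h1 : ContinuousOn (fun a : ℝ × Eu p => z a.1 a.2) (Icc 0 T ×ˢ closure Ω) :=
    h.cz.mono fun a ha => ⟨ha.1.1, ha.2⟩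
  obtain ⟨C, hC0, hC⟩ := hΩ.exists_bound₂ h1
  exact ⟨C, hC0, fun t ht hT x hx => hC t ⟨ht, hT⟩ x hx⟩

/-- A limit of `LipOn` bounds for the gradient: the gradient of a Lipschitz `C1` function is
bounded. -/
theorem LipOn.norm_gradient_le (hΩ : Dom Ω q) {f : Eu p → ℝ} {f' : Eu p → Eu p} {K : ℝ}
    (hK : 0 ≤ K) (h : LipOn Ω K f) (hf : C1 Ω f f') : ∀ x ∈ closure Ω, ‖f' x‖ ≤ K := by
  have h1 : ∀ x ∈ Ω, ‖f' x‖ ≤ K := by
    intro x hx
    have h2 := (hf.d1 x hx).hasFDerivAt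
    have h3 : ‖(InnerProductSpace.toDual ℝ (Eu p)) (f' x)‖ ≤ K := by
      refine h2.le_of_lip' hK ?_
      filter_upwards [hΩ.isOpen.mem_nhds hx] with y hy
      rw [Real.norm_eq_abs]
      exact h y (subset_closure hy) x (subset_closure hx)
    rwa [LinearIsometryEquiv.norm_map] at h3
  intro x hx
  have h4 : ContinuousOn (fun x => ‖f' x‖) (closure Ω) := hf.c1.norm
  have h5 : closure Ω ⊆ {x | x ∈ closure Ω ∧ ‖f' x‖ ≤ K} := by
    have h6 : IsClosed {x | x ∈ closure Ω ∧ ‖f' x‖ ≤ K} :=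
      h4.preimage_isClosed_of_isClosed isClosed_closure isClosed_Iic
    refine closure_minimal (fun y hy => ⟨subset_closure hy, h1 y hy⟩) h6
  exact (h5 hx).2

end Pool.Agent.Lib.MP_4fbe7c_an.ND
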