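import Pool.Agent.Lib.MP_4fbe7c_an.UL.Iface

/-!
Project ND (MP_4fbe7c_an): the slowest disperser wins in nearly constant environments, on every
bounded domain of `ℝ^p` with a `C²` boundary, for every number of species and all rates.
Definitions and the statements of all modules.
Proofs on paper: `Pool/Agent/Lib/MP_4fbe7c_an/ND/Paper.md`.
-/

set_option autoImplicit false

open Set MeasureTheory

namespace Pool.Agent.Lib.MP_4fbe7c_an.ND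

open Pool.Agent.Lib.MP_4fbe7c_an.UL

/-- Euclidean space. -/
abbrev Eu (p : ℕ) := EuclideanSpace ℝ (Fin p)

/-- The trace of a linear map (the Laplacian, if the map is the Hessian). -/
noncomputable def tr {p : ℕ} (H : Eu p →L[ℝ] Eu p) : ℝ := ∑ i, H (EuclideanSpace.single i 1) i

/-- `Ω = {q < 0}` is a bounded connected domain with a `C²` boundary `{q = 0}`. -/
structure Dom {p : ℕ} (Ω : Set (Eu p)) (q : Eu p → ℝ) : Prop where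
  conn : IsConnected Ω
  bdd : Bornology.IsBounded Ω
  smooth : ContDiff ℝ 2 q
  eq : Ω = {x | q x < 0}
  grad : ∀ x, q x = 0 → gradient q x ≠ 0

section classes

variable {p : ℕ} (Ω : Set (Eu p)) (q : Eu p → ℝ)

/-- `f` is `C¹` up to the boundary, with gradient `f'`. -/
structure C1 (f : Eu p → ℝ) (f' : Eu p → Eu p) : Prop where
  c0 : ContinuousOn f (closure Ω)
  c1 : ContinuousOn f' (closure Ω)
  d1 : ∀ x ∈ Ω, HasGradientAt f (f' x) x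

/-- `f` is `C²` up to the boundary, with gradient `f'` and Hessian `H`. -/
structure C2 (f : Eu p → ℝ) (f' : Eu p → Eu p) (H : Eu p → Eu p →L[ℝ] Eu p) : Prop where
  toC1 : C1 Ω f f'
  c2 : ContinuousOn H (closure Ω)
  d2 : ∀ x ∈ Ω, HasFDerivAt f' (H x) x

/-- The Neumann condition for the gradient `f'`. -/
def Neu (f' : Eu p → Eu p) : Prop := ∀ x ∈ frontier Ω, inner ℝ (f' x) (gradient q x) = 0

/-- `z` is continuous on `[0, ∞) × closure Ω` and `C^{1,2}` on `(0, ∞) × closure Ω`, with the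
Neumann condition; `g`, `H` are the gradient and the Hessian, `z'` is the time derivative. -/
structure Evo (z : ℝ → Eu p → ℝ) (g : ℝ → Eu p → Eu p) (H : ℝ → Eu p → Eu p →L[ℝ] Eu p)
    (z' : ℝ → Eu p → ℝ) : Prop where
  cz : ContinuousOn (fun a : ℝ × Eu p => z a.1 a.2) (Ici 0 ×ˢ closure Ω)
  cg : ContinuousOn (fun a : ℝ × Eu p => g a.1 a.2) (Ioi 0 ×ˢ closure Ω)
  cH : ContinuousOn (fun a : ℝ × Eu p => H a.1 a.2) (Ioi 0 ×ˢ closure Ω)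
  cz' : ContinuousOn (fun a : ℝ × Eu p => z' a.1 a.2) (Ioi 0 ×ˢ closure Ω)
  dx : ∀ t, 0 < t → ∀ x ∈ Ω, HasGradientAt (z t) (g t x) x
  dxx : ∀ t, 0 < t → ∀ x ∈ Ω, HasFDerivAt (g t) (H t x) x
  dt : ∀ t, 0 < t → ∀ x ∈ closure Ω, HasDerivAt (fun s => z s x) (z' t x) t
  neu : ∀ t, 0 < t → Neu Ω q (g t)

/-- `f` is Lipschitz on `closure Ω`. -/
def LipOn (K : ℝ) (f : Eu p → ℝ) : Prop :=
  ∀ x ∈ closure Ω, ∀ y ∈ closure Ω, |f x - f y| ≤ K * ‖x - y‖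

/-- A positive steady state of one species with rate `d`. -/
structure Stdy (m : Eu p → ℝ) (d : ℝ) (θ : Eu p → ℝ) (θ' : Eu p → Eu p)
    (θ'' : Eu p → Eu p →L[ℝ] Eu p) : Prop where
  pos : ∀ x ∈ closure Ω, 0 < θ x
  c2 : C2 Ω θ θ' θ''
  neu : Neu Ω q θ'
  eq : ∀ x ∈ closure Ω, d * tr (θ'' x) + θ x * (m x - θ x) = 0

end classes

/-! ### Part G: geometry and maximum principles -/

/-- DV0: the divergence of a compactly supported `C¹` field has integral zero. -/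
def Dv0Statement : Prop :=
  ∀ (p : ℕ) (G : Eu p → Eu p) (D : Eu p → Eu p →L[ℝ] Eu p), (∀ x, HasFDerivAt G (D x) x) →
    Continuous D → HasCompactSupport G → ∫ x, tr (D x) = 0

/-- STR: strips near the boundary have small volume. -/
def StrStatement : Prop :=
  ∀ (p : ℕ) (Ω : Set (Eu p)) (q : Eu p → ℝ), Dom Ω q → ∃ C s₀ : ℝ, 0 < C ∧ 0 < s₀ ∧
    ∀ s : ℝ, 0 < s → s < s₀ → volume.real {x | -s < q x ∧ q x < 0} ≤ C * s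

/-- GRN: the divergence theorem for fields which are tangential at the boundary. -/
def GrnStatement : Prop :=
  ∀ (p : ℕ) (Ω : Set (Eu p)) (q : Eu p → ℝ) (F : Eu p → Eu p) (D : Eu p → Eu p →L[ℝ] Eu p),
    Dom Ω q → ContinuousOn F (closure Ω) → ContinuousOn D (closure Ω) →
    (∀ x ∈ Ω, HasFDerivAt F (D x) x) → Neu Ω q F → ∫ x in Ω, tr (D x) = 0

/-- IBP: integration by parts. -/
def IbpStatement : Prop :=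
  ∀ (p : ℕ) (Ω : Set (Eu p)) (q : Eu p → ℝ) (f : Eu p → ℝ) (f' F : Eu p → Eu p)
    (D : Eu p → Eu p →L[ℝ] Eu p), Dom Ω q → C1 Ω f f' → ContinuousOn F (closure Ω) →
    ContinuousOn D (closure Ω) → (∀ x ∈ Ω, HasFDerivAt F (D x) x) → Neu Ω q F →
    ∫ x in Ω, f x * tr (D x) = -∫ x in Ω, inner ℝ (f' x) (F x)

/-- MXP: a maximum point of a function with the Neumann condition. -/
def MxpStatement : Prop :=
  ∀ (p : ℕ) (Ω : Set (Eu p)) (q : Eu p → ℝ) (f : Eu p → ℝ) (f' : Eu p → Eu p)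
    (H : Eu p → Eu p →L[ℝ] Eu p) (x : Eu p), Dom Ω q → C2 Ω f f' H → Neu Ω q f' →
    x ∈ closure Ω → (∀ y ∈ closure Ω, f y ≤ f x) → f' x = 0 ∧ tr (H x) ≤ 0

/-- CMP: the comparison principle. -/
def CmpStatement : Prop :=
  ∀ (p : ℕ) (Ω : Set (Eu p)) (q : Eu p → ℝ) (z : ℝ → Eu p → ℝ) (g : ℝ → Eu p → Eu p)
    (H : ℝ → Eu p → Eu p →L[ℝ] Eu p) (z' : ℝ → Eu p → ℝ) (d K B η T : ℝ), Dom Ω q →
    Evo Ω q z g H z' → 0 < d → 0 ≤ K → 0 ≤ B → 0 ≤ η →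
    (∀ t, 0 < t → t ≤ T → ∀ x ∈ closure Ω, 0 < z t x →
      z' t x ≤ d * tr (H t x) + K * z t x + η) →
    (∀ x ∈ closure Ω, z 0 x ≤ B) →
    ∀ t, 0 ≤ t → t ≤ T → ∀ x ∈ closure Ω, z t x ≤ (B + η * t) * Real.exp (K * t)

/-- MOV: the moving ball. -/
def MovStatement : Prop :=
  ∀ (p : ℕ) (Ω : Set (Eu p)) (q : Eu p → ℝ) (z : ℝ → Eu p → ℝ) (g : ℝ → Eu p → Eu p)
    (H : ℝ → Eu p → Eu p →L[ℝ] Eu p) (z' : ℝ → Eu p → ℝ) (d K t₁ t₂ R e₀ : ℝ) (c V : Eu p),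
    Dom Ω q → Evo Ω q z g H z' → 0 < d → 0 ≤ K → 0 ≤ t₁ → t₁ ≤ t₂ → 0 < R → 0 < e₀ →
    (∀ t, t₁ ≤ t → t ≤ t₂ → ∀ x ∈ closure Ω, 0 ≤ z t x) →
    (∀ t, t₁ < t → t ≤ t₂ → ∀ x ∈ closure Ω, d * tr (H t x) - K * z t x ≤ z' t x) →
    (∀ t, t₁ ≤ t → t ≤ t₂ → ∀ x ∈ frontier Ω, ‖x - (c + (t - t₁) • V)‖ ≤ R →
      0 < inner ℝ (x - (c + (t - t₁) • V)) (gradient q x)) →
    (∀ x ∈ closure Ω, ‖x - c‖ ≤ R → e₀ ≤ z t₁ x) →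
    ∀ t, t₁ ≤ t → t ≤ t₂ → ∀ x ∈ closure Ω, ‖x - (c + (t - t₁) • V)‖ < R → 0 < z t x

/-- POS: a nonnegative supersolution becomes positive. -/
def PosStatement : Prop :=
  ∀ (p : ℕ) (Ω : Set (Eu p)) (q : Eu p → ℝ) (z : ℝ → Eu p → ℝ) (g : ℝ → Eu p → Eu p)
    (H : ℝ → Eu p → Eu p →L[ℝ] Eu p) (z' : ℝ → Eu p → ℝ) (d K T : ℝ), Dom Ω q →
    Evo Ω q z g H z' → 0 < d → 0 ≤ K → (∀ t, 0 ≤ t → t ≤ T → ∀ x ∈ closure Ω, 0 ≤ z t x) →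
    (∀ t, 0 < t → t ≤ T → ∀ x ∈ closure Ω, d * tr (H t x) - K * z t x ≤ z' t x) →
    (∃ x ∈ closure Ω, 0 < z 0 x) → ∀ t, 0 < t → t ≤ T → ∀ x ∈ closure Ω, 0 < z t x

/-- The Lipschitz estimate for parabolic equations, with constants `C`, `c`. -/
def LipC {p : ℕ} (Ω : Set (Eu p)) (q : Eu p → ℝ) (C c : ℝ) : Prop :=
  ∀ (z : ℝ → Eu p → ℝ) (g : ℝ → Eu p → Eu p) (H : ℝ → Eu p → Eu p →L[ℝ] Eu p)
    (z' : ℝ → Eu p → ℝ) (d M F T : ℝ), Evo Ω q z g H z' → 0 < d → 0 < M → 0 ≤ F → 0 < T →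
    d * T ≤ c → 8 * F * T ≤ M → (∀ t, 0 ≤ t → t ≤ T → ∀ x ∈ closure Ω, |z t x| ≤ M) →
    (∀ t, 0 < t → t ≤ T → ∀ x ∈ closure Ω, |z' t x - d * tr (H t x)| ≤ F) →
    LipOn Ω (C * M / Real.sqrt (d * T)) (z T)

/-- NRM: the geometry of the boundary. -/
def NrmStatement : Prop :=
  ∀ (p : ℕ) (Ω : Set (Eu p)) (q : Eu p → ℝ), Dom Ω q → ∃ L : ℝ, 0 ≤ L ∧
    (Convex ℝ Ω → L = 0) ∧
    ∀ x ∈ frontier Ω, ∀ y ∈ closure Ω, -(L * ‖x - y‖ ^ 2) ≤ inner ℝ (x - y) (gradient q x)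

/-- The barrier of LIP: `B g(|x - y| / σ) exp (A (q x + q y))`, `g s = 2 s - s²`. -/
noncomputable def Psi {p : ℕ} (q : Eu p → ℝ) (B σ A : ℝ) (x y : Eu p) : ℝ :=
  B * (2 * (‖x - y‖ / σ) - (‖x - y‖ / σ) ^ 2) * Real.exp (A * (q x + q y))

/-- BDX: `f - Psi (·, y)` has no maximum on the boundary. -/
def BdxStatement : Prop :=
  ∀ (p : ℕ) (Ω : Set (Eu p)) (q : Eu p → ℝ), Dom Ω q → ∃ A₀ : ℝ, 0 ≤ A₀ ∧
    (Convex ℝ Ω → A₀ = 0) ∧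
    ∀ (A B σ : ℝ) (f : Eu p → ℝ) (f' : Eu p → Eu p) (x y : Eu p), A₀ < A → 0 < B → 0 < σ →
      C1 Ω f f' → Neu Ω q f' → x ∈ frontier Ω → y ∈ closure Ω → 0 < ‖x - y‖ → ‖x - y‖ < σ →
      ∃ᶠ s in nhdsWithin (0 : ℝ) (Ioi 0), x + s • (-gradient q x) ∈ Ω ∧
        f x - Psi q B σ A x y <
          f (x + s • (-gradient q x)) - Psi q B σ A (x + s • (-gradient q x)) y

/-- RFL: the second order condition at an interior maximum (reflection coupling). -/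
def RflStatement : Prop :=
  ∀ (p : ℕ) (Ω : Set (Eu p)) (q : Eu p → ℝ), Dom Ω q → ∃ C : ℝ, 0 ≤ C ∧
    ∀ (A B σ : ℝ) (f : Eu p → ℝ) (f' : Eu p → Eu p) (H : Eu p → Eu p →L[ℝ] Eu p)
      (x y : Eu p), 0 < A → 0 < B → 0 < σ → C2 Ω f f' H → x ∈ Ω → y ∈ Ω → 0 < ‖x - y‖ →
      ‖x - y‖ < σ → IsLocalMax (fun a : Eu p × Eu p => f a.1 - f a.2 - Psi q B σ A a.1 a.2) (x, y) →
      tr (H x) - tr (H y) ≤ Real.exp (A * (q x + q y)) *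
        (-(8 * B / σ ^ 2) + C * (A + A ^ 2) * (2 * B / σ + B))

/-- LIP: the Lipschitz estimate (reflection coupling). -/
def LipStatement : Prop :=
  ∀ (p : ℕ) (Ω : Set (Eu p)) (q : Eu p → ℝ), Dom Ω q →
    (∃ C c : ℝ, 0 < C ∧ 0 < c ∧ LipC Ω q C c) ∧ (Convex ℝ Ω → ∀ c : ℝ, LipC Ω q 2 c)

/-- THL: a `C2` function with the Neumann condition is Lipschitz. -/
def ThlStatement : Prop :=
  ∀ (p : ℕ) (Ω : Set (Eu p)) (q : Eu p → ℝ) (f : Eu p → ℝ) (f' : Eu p → Eu p)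
    (H : Eu p → Eu p →L[ℝ] Eu p), Dom Ω q → C2 Ω f f' H → Neu Ω q f' →
    ∃ K : ℝ, 0 < K ∧ LipOn Ω K f

/-- SUP: a Lipschitz function with small integral is small. -/
def SupStatement : Prop :=
  ∀ (p : ℕ) (Ω : Set (Eu p)) (q : Eu p → ℝ) (K η : ℝ), Dom Ω q → 0 < η →
    ∃ δ : ℝ, 0 < δ ∧ ∀ f : Eu p → ℝ, LipOn Ω K f → ∫ x in Ω, |f x| < δ →
      ∀ x ∈ closure Ω, |f x| < η

/-- OSC: a Lipschitz function with small Dirichlet integral has small oscillation. -/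
def OscStatement : Prop :=
  ∀ (p : ℕ) (Ω : Set (Eu p)) (q : Eu p → ℝ) (K η : ℝ), Dom Ω q → 0 < η →
    ∃ δ : ℝ, 0 < δ ∧ ∀ (f : Eu p → ℝ) (f' : Eu p → Eu p), C1 Ω f f' → LipOn Ω K f →
      ∫ x in Ω, ‖f' x‖ ^ 2 < δ → ∀ x ∈ closure Ω, ∀ y ∈ closure Ω, |f x - f y| < η

/-- DIF: differentiation under the integral sign. -/
def DifStatement : Prop :=
  ∀ (p : ℕ) (Ω : Set (Eu p)) (q : Eu p → ℝ) (φ φ' : ℝ → Eu p → ℝ), Dom Ω q →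
    ContinuousOn (fun a : ℝ × Eu p => φ a.1 a.2) (Ioi 0 ×ˢ closure Ω) →
    ContinuousOn (fun a : ℝ × Eu p => φ' a.1 a.2) (Ioi 0 ×ˢ closure Ω) →
    (∀ t, 0 < t → ∀ x ∈ Ω, HasDerivAt (fun s => φ s x) (φ' t x) t) → ∀ t, 0 < t →
    HasDerivAt (fun s => ∫ x in Ω, φ s x) (∫ x in Ω, φ' t x) t

/-! ### Part C: the functional -/

/-- A positive solution of the system with species `0, …, n` and rates `ρ 0, …, ρ n`. -/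
structure SolN {p : ℕ} (Ω : Set (Eu p)) (q : Eu p → ℝ) (m : Eu p → ℝ) (n : ℕ) (ρ : ℕ → ℝ)
    (u : ℕ → ℝ → Eu p → ℝ) (v : ℕ → ℝ → Eu p → Eu p) (w : ℕ → ℝ → Eu p → Eu p →L[ℝ] Eu p) :
    Prop where
  dom : Dom Ω q
  cm : ContinuousOn m (closure Ω)
  evo : ∀ i, i ≤ n → Evo Ω q (u i) (v i) (w i)
    (fun t x => ρ i * tr (w i t x) + u i t x * (m x - ∑ j ∈ Finset.range (n + 1), u j t x))
  pos : ∀ i, i ≤ n → ∀ t, 0 < t → ∀ x ∈ closure Ω, 0 < u i t x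

/-- `P_k = Σ_{i ≤ k} a_i`. -/
noncomputable def Pk (a : ℕ → ℝ) (k : ℕ) : ℝ := ∑ i ∈ Finset.range (k + 1), a i

/-- `∇ P_k`. -/
noncomputable def Pg {p : ℕ} (b : ℕ → Eu p) (k : ℕ) : Eu p := ∑ i ∈ Finset.range (k + 1), b i

/-- `∇ R_k`, `R_k = Σ_{i ≤ k} ρ_i u_i`. -/
noncomputable def Rg {p : ℕ} (ρ : ℕ → ℝ) (b : ℕ → Eu p) (k : ℕ) : Eu p :=
  ∑ i ∈ Finset.range (k + 1), ρ i • b i

/-- The fractions `S_k`. -/
noncomputable def Sk (n : ℕ) (a : ℕ → ℝ) (k : ℕ) : ℝ := Pk a k / Pk a n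

/-- One coordinate of `∇ P_k / U`. -/
noncomputable def Zk (n : ℕ) (a b : ℕ → ℝ) (k : ℕ) : ℝ := Pk b k / Pk a n

/-- One coordinate of `∇ R_k / (ρ_0 U)`. -/
noncomputable def ZZk (n : ℕ) (ρ a b : ℕ → ℝ) (k : ℕ) : ℝ :=
  (∑ i ∈ Finset.range (k + 1), ρ i * b i) / (ρ 0 * Pk a n)

/-- The functional, of a state `f`. -/
noncomputable def FuN {p : ℕ} (Ω : Set (Eu p)) (n c : ℕ) (r : ℕ → ℝ) (β : ℕ → Eu p → ℝ)
    (A : Eu p → ℝ) (f : ℕ → Eu p → ℝ) : ℝ :=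
  ∫ x in Ω, (Pk (fun i => f i x) n
    - (∑ k ∈ Finset.range (n + 1), β k x * Real.log (Pk (fun i => f i x) k))
    + ∑ j ∈ Finset.Ico c n, A x * (nu r (j + 1) * (Real.log (Pk (fun i => f i x) (j + 1))
        - Real.log (Pk (fun i => f i x) c) - 1
        + Pk (fun i => f i x) c / Pk (fun i => f i x) (j + 1))))

/-- The functional with the weights of project UL. -/
noncomputable def FuT {p : ℕ} (Ω : Set (Eu p)) (n c : ℕ) (ρ : ℕ → ℝ) (a₀ b : ℝ)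
    (θ : Eu p → ℝ) (f : ℕ → Eu p → ℝ) : ℝ :=
  FuN Ω n c (rr n ρ) (fun k x => bet c (rr n ρ) b k (θ x)) (fun x => Af a₀ b (θ x)) f

/-- The value of the functional at the steady state. -/
noncomputable def FuE {p : ℕ} (Ω : Set (Eu p)) (θ : Eu p → ℝ) : ℝ :=
  ∫ x in Ω, (θ x - θ x * Real.log (θ x))

/-- The sum over the coordinates of the quadratic forms. -/
noncomputable def QfN {p : ℕ} (n c : ℕ) (lam Ā : ℝ) (r η ρ : ℕ → ℝ) (a : ℕ → ℝ) (b : ℕ → Eu p)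
    (ζ : Eu p) : ℝ :=
  ∑ i, Qf n c lam Ā r η (Sk n a) (Zk n a (fun k => b k i)) (ZZk n ρ a (fun k => b k i)) (ζ i)

/-- The sum over the coordinates of the forms `Nf`. -/
noncomputable def NfN {p : ℕ} (n : ℕ) (r ρ : ℕ → ℝ) (a : ℕ → ℝ) (b : ℕ → Eu p) (ζ : Eu p) : ℝ :=
  ∑ i, Nf n r (Sk n a) (Zk n a (fun k => b k i)) (ZZk n ρ a (fun k => b k i)) (ζ i)

/-- The dissipation at `x`. -/
noncomputable def DxN {p : ℕ} (n : ℕ) (ρ : ℕ → ℝ) (θ : Eu p → ℝ) (θ' : Eu p → Eu p)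
    (f : ℕ → Eu p → ℝ) (f' : ℕ → Eu p → Eu p) (x : Eu p) : ℝ :=
  1 / 2 * (Pk (fun i => f i x) n - θ x) ^ 2
    + ρ 0 / 16 * (θ x * NfN n (rr n ρ) ρ (fun i => f i x) (fun i => f' i x) ((θ x)⁻¹ • θ' x))

/-- LGP: time derivative of `∫ f log P_k`. -/
def LgpNStatement : Prop :=
  ∀ (p : ℕ) (Ω : Set (Eu p)) (q m : Eu p → ℝ) (n : ℕ) (ρ : ℕ → ℝ) (u : ℕ → ℝ → Eu p → ℝ)
    (v : ℕ → ℝ → Eu p → Eu p) (w : ℕ → ℝ → Eu p → Eu p →L[ℝ] Eu p) (f : Eu p → ℝ)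
    (f' : Eu p → Eu p) (k : ℕ), SolN Ω q m n ρ u v w → k ≤ n → C1 Ω f f' → ∀ t, 0 < t →
    HasDerivAt (fun t => ∫ x in Ω, f x * Real.log (Pk (fun i => u i t x) k))
      (∫ x in Ω, (f x * (m x - Pk (fun i => u i t x) n)
        - inner ℝ (f' x) (Rg ρ (fun i => v i t x) k) / Pk (fun i => u i t x) k
        + f x * (inner ℝ (Pg (fun i => v i t x) k) (Rg ρ (fun i => v i t x) k)
            / Pk (fun i => u i t x) k ^ 2))) t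

/-- RTP: time derivative of `∫ f P_c / P_k`. -/
def RtpNStatement : Prop :=
  ∀ (p : ℕ) (Ω : Set (Eu p)) (q m : Eu p → ℝ) (n : ℕ) (ρ : ℕ → ℝ) (u : ℕ → ℝ → Eu p → ℝ)
    (v : ℕ → ℝ → Eu p → Eu p) (w : ℕ → ℝ → Eu p → Eu p →L[ℝ] Eu p) (f : Eu p → ℝ)
    (f' : Eu p → Eu p) (c k : ℕ), SolN Ω q m n ρ u v w → c ≤ n → k ≤ n → C1 Ω f f' →
    ∀ t, 0 < t →
    HasDerivAt (fun t => ∫ x in Ω, f x * (Pk (fun i => u i t x) c / Pk (fun i => u i t x) k))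
      (∫ x in Ω,
        (-(inner ℝ (f' x) (Rg ρ (fun i => v i t x) c) / Pk (fun i => u i t x) k
          - inner ℝ (f' x) (Rg ρ (fun i => v i t x) k) * Pk (fun i => u i t x) c
              / Pk (fun i => u i t x) k ^ 2)
        + f x * (inner ℝ (Rg ρ (fun i => v i t x) c) (Pg (fun i => v i t x) k)
              / Pk (fun i => u i t x) k ^ 2
            + inner ℝ (Rg ρ (fun i => v i t x) k) (Pg (fun i => v i t x) c)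
              / Pk (fun i => u i t x) k ^ 2
            - 2 * (inner ℝ (Rg ρ (fun i => v i t x) k) (Pg (fun i => v i t x) k)
              * Pk (fun i => u i t x) c / Pk (fun i => u i t x) k ^ 3)))) t

/-- STE: the equation of the steady state, tested with `U / θ`. -/
def SteNStatement : Prop :=
  ∀ (p : ℕ) (Ω : Set (Eu p)) (q m : Eu p → ℝ) (d : ℝ) (θ : Eu p → ℝ) (θ' : Eu p → Eu p)
    (θ'' : Eu p → Eu p →L[ℝ] Eu p) (U : Eu p → ℝ) (U' : Eu p → Eu p), Dom Ω q → 0 < d →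
    ContinuousOn m (closure Ω) → Stdy Ω q m d θ θ' θ'' → C1 Ω U U' →
    ∫ x in Ω, (U x - θ x) * (m x - θ x) =
      d * ∫ x in Ω, inner ℝ ((θ x)⁻¹ • θ' x) (U' x - U x • (θ x)⁻¹ • θ' x)

/-- DVF: time derivative of the functional. -/
def DvfNStatement : Prop :=
  ∀ (p : ℕ) (Ω : Set (Eu p)) (q m : Eu p → ℝ) (a₀ b : ℝ) (θ : Eu p → ℝ) (θ' : Eu p → Eu p)
    (θ'' : Eu p → Eu p →L[ℝ] Eu p) (n c : ℕ) (ρ : ℕ → ℝ) (u : ℕ → ℝ → Eu p → ℝ)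
    (v : ℕ → ℝ → Eu p → Eu p) (w : ℕ → ℝ → Eu p → Eu p →L[ℝ] Eu p),
    SolN Ω q m n ρ u v w → Ord n ρ → Rts n c (rr n ρ) → Stdy Ω q m (ρ 0) θ θ' θ'' → 0 < a₀ →
    b ≤ 1001 / 1000 * a₀ → (∀ x ∈ closure Ω, a₀ ≤ θ x ∧ θ x ≤ b) → ∀ t, 0 < t →
    HasDerivAt (fun t => FuT Ω n c ρ a₀ b θ (fun i => u i t))
      (∫ x in Ω, (-(Pk (fun i => u i t x) n - θ x) ^ 2
        + ρ 0 * ((Pk (fun i => u i t x) n - θ x) * inner ℝ ((θ x)⁻¹ • θ' x)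
            ((Pk (fun i => u i t x) n)⁻¹ • Pg (fun i => v i t x) n - (θ x)⁻¹ • θ' x))
        - ρ 0 * θ x * QfN n c (lamf b (θ x)) (Af a₀ b (θ x) / θ x) (rr n ρ)
            (etaf c (rr n ρ) (lamf b (θ x))) ρ (fun i => u i t x) (fun i => v i t x)
            ((θ x)⁻¹ • θ' x))) t

/-- DIS: the functional decreases. -/
def DisNStatement : Prop :=
  ∀ (p : ℕ) (Ω : Set (Eu p)) (q m : Eu p → ℝ) (a₀ b : ℝ) (θ : Eu p → ℝ) (θ' : Eu p → Eu p)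
    (θ'' : Eu p → Eu p →L[ℝ] Eu p) (n c : ℕ) (ρ : ℕ → ℝ) (u : ℕ → ℝ → Eu p → ℝ)
    (v : ℕ → ℝ → Eu p → Eu p) (w : ℕ → ℝ → Eu p → Eu p →L[ℝ] Eu p),
    SolN Ω q m n ρ u v w → Ord n ρ → Rts n c (rr n ρ) → Stdy Ω q m (ρ 0) θ θ' θ'' → 0 < a₀ →
    b ≤ 1001 / 1000 * a₀ → (∀ x ∈ closure Ω, a₀ ≤ θ x ∧ θ x ≤ b) →
    (∀ x ∈ closure Ω, ρ 0 * (‖θ' x‖ / θ x) ^ 2 ≤ θ x / 1000) → ∀ t, 0 < t →
    ∃ F' : ℝ, HasDerivAt (fun t => FuT Ω n c ρ a₀ b θ (fun i => u i t)) F' t ∧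
      F' ≤ -∫ x in Ω, DxN n ρ θ θ' (fun i => u i t) (fun i => v i t) x

/-- LOW: the functional is at least its value at the steady state. -/
def LowStatement : Prop :=
  ∀ (p : ℕ) (Ω : Set (Eu p)) (q m : Eu p → ℝ) (a₀ b : ℝ) (θ : Eu p → ℝ) (θ' : Eu p → Eu p)
    (θ'' : Eu p → Eu p →L[ℝ] Eu p) (n c : ℕ) (ρ : ℕ → ℝ) (f : ℕ → Eu p → ℝ), Dom Ω q →
    Ord n ρ → Rts n c (rr n ρ) → Stdy Ω q m (ρ 0) θ θ' θ'' → 0 < a₀ →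
    b ≤ 1001 / 1000 * a₀ → (∀ x ∈ closure Ω, a₀ ≤ θ x ∧ θ x ≤ b) →
    (∀ i, i ≤ n → ContinuousOn (f i) (closure Ω) ∧ ∀ x ∈ closure Ω, 0 < f i x) →
    FuE Ω θ ≤ FuT Ω n c ρ a₀ b θ f

/-- UPP: upper bound of the functional near the steady state. -/
def UppStatement : Prop :=
  ∀ (p : ℕ) (Ω : Set (Eu p)) (q m : Eu p → ℝ) (a₀ b : ℝ) (θ : Eu p → ℝ) (θ' : Eu p → Eu p)
    (θ'' : Eu p → Eu p →L[ℝ] Eu p) (n c : ℕ) (ρ : ℕ → ℝ) (η : ℝ), Dom Ω q →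
    Ord n ρ → Rts n c (rr n ρ) → Stdy Ω q m (ρ 0) θ θ' θ'' → 0 < a₀ →
    b ≤ 1001 / 1000 * a₀ → (∀ x ∈ closure Ω, a₀ ≤ θ x ∧ θ x ≤ b) → 0 < η →
    ∃ δ : ℝ, 0 < δ ∧ ∀ f : ℕ → Eu p → ℝ,
      (∀ i, i ≤ n → ContinuousOn (f i) (closure Ω) ∧ ∀ x ∈ closure Ω, 0 < f i x) →
      (∀ x ∈ closure Ω, |f 0 x - θ x| < δ ∧ ∀ i, 1 ≤ i → i ≤ n → f i x < δ) →
      FuT Ω n c ρ a₀ b θ f < FuE Ω θ + η

/-- LOB: if the functional is close to its minimum, then the state is close to the steady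
state. -/
def LobStatement : Prop :=
  ∀ (p : ℕ) (Ω : Set (Eu p)) (q m : Eu p → ℝ) (a₀ b : ℝ) (θ : Eu p → ℝ) (θ' : Eu p → Eu p)
    (θ'' : Eu p → Eu p →L[ℝ] Eu p) (n c : ℕ) (ρ : ℕ → ℝ) (M K ε : ℝ), Dom Ω q →
    Ord n ρ → Rts n c (rr n ρ) → Stdy Ω q m (ρ 0) θ θ' θ'' → 0 < a₀ →
    b ≤ 1001 / 1000 * a₀ → (∀ x ∈ closure Ω, a₀ ≤ θ x ∧ θ x ≤ b) → 0 < ε →
    ∃ η : ℝ, 0 < η ∧ ∀ f : ℕ → Eu p → ℝ,
      (∀ i, i ≤ n → ContinuousOn (f i) (closure Ω) ∧ LipOn Ω K (f i) ∧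
        ∀ x ∈ closure Ω, 0 < f i x ∧ f i x ≤ M) →
      FuT Ω n c ρ a₀ b θ f < FuE Ω θ + η →
      ∀ x ∈ closure Ω, |f 0 x - θ x| < ε ∧ ∀ i, 1 ≤ i → i ≤ n → f i x < ε

/-- CLO: small dissipation means close to the steady state. -/
def CloNStatement : Prop :=
  ∀ (p : ℕ) (Ω : Set (Eu p)) (q m : Eu p → ℝ) (θ : Eu p → ℝ) (θ' : Eu p → Eu p)
    (θ'' : Eu p → Eu p →L[ℝ] Eu p) (n c : ℕ) (ρ : ℕ → ℝ) (M K ε : ℝ), Dom Ω q →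
    ContinuousOn m (closure Ω) → (∃ x ∈ closure Ω, ∃ y ∈ closure Ω, m x ≠ m y) → Ord n ρ →
    Rts n c (rr n ρ) → Stdy Ω q m (ρ 0) θ θ' θ'' → 0 < ε →
    ∃ δ : ℝ, 0 < δ ∧ ∀ (f : ℕ → Eu p → ℝ) (f' : ℕ → Eu p → Eu p),
      (∀ i, i ≤ n → C1 Ω (f i) (f' i) ∧ LipOn Ω K (f i) ∧
        ∀ x ∈ closure Ω, 0 < f i x ∧ f i x ≤ M) →
      ∫ x in Ω, DxN n ρ θ θ' f f' x < δ →
      ∀ x ∈ closure Ω, |f 0 x - θ x| < ε ∧ ∀ i, 1 ≤ i → i ≤ n → f i x < ε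

/-! ### Part D: the system -/

/-- A classical solution of the `N`-species system. -/
structure Sol {p : ℕ} (Ω : Set (Eu p)) (q m : Eu p → ℝ) {N : ℕ} (d : Fin N → ℝ)
    (u : Fin N → ℝ → Eu p → ℝ) (v : Fin N → ℝ → Eu p → Eu p)
    (w : Fin N → ℝ → Eu p → Eu p →L[ℝ] Eu p) : Prop where
  evo : ∀ i, Evo Ω q (u i) (v i) (w i)
    (fun t x => d i * tr (w i t x) + u i t x * (m x - ∑ j, u j t x))
  init : ∀ i, ∀ x ∈ closure Ω, 0 ≤ u i 0 x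

section pres

variable {p N : ℕ} (Ω : Set (Eu p)) (u : Fin N → ℝ → Eu p → ℝ)

/-- Species `i` is present. -/
def PresN (i : Fin N) : Prop := ∀ t, 0 < t → ∀ x ∈ closure Ω, 0 < u i t x

/-- Species `i` is absent. -/
def AbsentN (i : Fin N) : Prop := ∀ t, 0 ≤ t → ∀ x ∈ closure Ω, u i t x = 0

/-- The state at time `t` is close to `(0, …, θ, …, 0)`. -/
def NearN (i₀ : Fin N) (θ : Eu p → ℝ) (ε t : ℝ) : Prop :=
  ∀ x ∈ closure Ω, |u i₀ t x - θ x| < ε ∧ ∀ j, j ≠ i₀ → u j t x < ε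

end pres

/-- PRE: nonnegativity; every species is present or absent. -/
def PreStatement : Prop :=
  ∀ (p : ℕ) (Ω : Set (Eu p)) (q m : Eu p → ℝ) (N : ℕ) (d : Fin N → ℝ)
    (u : Fin N → ℝ → Eu p → ℝ) (v : Fin N → ℝ → Eu p → Eu p)
    (w : Fin N → ℝ → Eu p → Eu p →L[ℝ] Eu p), Dom Ω q → ContinuousOn m (closure Ω) →
    (∀ i, 0 < d i) → Sol Ω q m d u v w → ∀ i,
    (∀ t, 0 ≤ t → ∀ x ∈ closure Ω, 0 ≤ u i t x) ∧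
      ((∃ x ∈ closure Ω, 0 < u i 0 x) → PresN Ω u i) ∧
      (PresN Ω u i ∨ AbsentN Ω u i)

/-- BND: uniform bounds, and uniform Lipschitz bounds for `t ≥ 1`. -/
def BndStatement : Prop :=
  ∀ (p : ℕ) (Ω : Set (Eu p)) (q m : Eu p → ℝ) (N : ℕ) (d : Fin N → ℝ) (B : ℝ), Dom Ω q →
    ContinuousOn m (closure Ω) → (∀ i, 0 < d i) → ∃ M K : ℝ,
    ∀ (u : Fin N → ℝ → Eu p → ℝ) (v : Fin N → ℝ → Eu p → Eu p)
      (w : Fin N → ℝ → Eu p → Eu p →L[ℝ] Eu p), Sol Ω q m d u v w →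
      (∀ i, ∀ x ∈ closure Ω, u i 0 x ≤ B) → ∀ i,
      (∀ t, 0 ≤ t → ∀ x ∈ closure Ω, u i t x ≤ M) ∧ ∀ t, 1 ≤ t → LipOn Ω K (u i t)

/-- SHO: closeness to the steady state persists for a unit of time. -/
def ShoStatement : Prop :=
  ∀ (p : ℕ) (Ω : Set (Eu p)) (q m : Eu p → ℝ) (N : ℕ) (d : Fin N → ℝ) (i₀ : Fin N)
    (θ : Eu p → ℝ) (θ' : Eu p → Eu p) (θ'' : Eu p → Eu p →L[ℝ] Eu p) (ε : ℝ), Dom Ω q →
    ContinuousOn m (closure Ω) → (∀ i, 0 < d i) → Stdy Ω q m (d i₀) θ θ' θ'' → 0 < ε →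
    ∃ δ : ℝ, 0 < δ ∧ ∀ (u : Fin N → ℝ → Eu p → ℝ) (v : Fin N → ℝ → Eu p → Eu p)
      (w : Fin N → ℝ → Eu p → Eu p →L[ℝ] Eu p), Sol Ω q m d u v w → NearN Ω u i₀ θ δ 0 →
      ∀ t, 0 ≤ t → t ≤ 1 → NearN Ω u i₀ θ ε t

/-- MRG: the present species, ordered. -/
def MrgNStatement : Prop :=
  ∀ (p : ℕ) (Ω : Set (Eu p)) (q m : Eu p → ℝ) (N : ℕ) (d : Fin N → ℝ)
    (u : Fin N → ℝ → Eu p → ℝ) (v : Fin N → ℝ → Eu p → Eu p)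
    (w : Fin N → ℝ → Eu p → Eu p →L[ℝ] Eu p) (i₀ : Fin N), Dom Ω q →
    ContinuousOn m (closure Ω) → (∀ i, 0 < d i) → Sol Ω q m d u v w → PresN Ω u i₀ →
    (∀ j, j ≠ i₀ → d i₀ < d j) → (∀ j, PresN Ω u j ∨ AbsentN Ω u j) →
    ∃ (n : ℕ) (σ : ℕ → Fin N), n < N ∧ (∀ k, n < k → σ k = i₀) ∧ (∀ k, 1 ≤ k → k ≤ n → σ k ≠ i₀) ∧
      σ 0 = i₀ ∧ Ord n (fun k => d (σ k)) ∧
      SolN Ω q m n (fun k => d (σ k)) (fun k => u (σ k)) (fun k => v (σ k))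
        (fun k => w (σ k)) ∧
      ∀ j, j ≠ i₀ → AbsentN Ω u j ∨ ∃ k, 1 ≤ k ∧ k ≤ n ∧ σ k = j

/-- The steady state is stable and attracts. -/
def GasN {p : ℕ} (Ω : Set (Eu p)) (q m : Eu p → ℝ) {N : ℕ} (d : Fin N → ℝ) (i₀ : Fin N)
    (θ : Eu p → ℝ) : Prop :=
  ∀ ε : ℝ, 0 < ε → ∃ δ : ℝ, 0 < δ ∧ ∀ (u : Fin N → ℝ → Eu p → ℝ) (v : Fin N → ℝ → Eu p → Eu p)
    (w : Fin N → ℝ → Eu p → Eu p →L[ℝ] Eu p), Sol Ω q m d u v w →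
    (NearN Ω u i₀ θ δ 0 → ∀ t, 0 ≤ t → NearN Ω u i₀ θ ε t) ∧
    ((∃ x ∈ closure Ω, 0 < u i₀ 0 x) → ∃ T : ℝ, ∀ t, T ≤ t → NearN Ω u i₀ θ ε t)

/-- CRI: the criterion. -/
def CriNStatement : Prop :=
  ∀ (p : ℕ) (Ω : Set (Eu p)) (q m : Eu p → ℝ) (a₀ b : ℝ) (θ : Eu p → ℝ) (θ' : Eu p → Eu p)
    (θ'' : Eu p → Eu p →L[ℝ] Eu p) (N : ℕ) (d : Fin N → ℝ) (i₀ : Fin N), Dom Ω q →
    ContinuousOn m (closure Ω) → (∃ x ∈ closure Ω, ∃ y ∈ closure Ω, m x ≠ m y) → 0 < d i₀ →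
    (∀ j, j ≠ i₀ → d i₀ < d j) → Stdy Ω q m (d i₀) θ θ' θ'' → 0 < a₀ →
    b ≤ 1001 / 1000 * a₀ → (∀ x ∈ closure Ω, a₀ ≤ θ x ∧ θ x ≤ b) →
    (∀ x ∈ closure Ω, d i₀ * (‖θ' x‖ / θ x) ^ 2 ≤ θ x / 1000) → GasN Ω q m d i₀ θ

/-- RNG: the steady state has its values between the bounds of `m`. -/
def RngStatement : Prop :=
  ∀ (p : ℕ) (Ω : Set (Eu p)) (q m : Eu p → ℝ) (a b d : ℝ) (θ : Eu p → ℝ) (θ' : Eu p → Eu p)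
    (θ'' : Eu p → Eu p →L[ℝ] Eu p), Dom Ω q → 0 < d → Stdy Ω q m d θ θ' θ'' →
    (∀ x ∈ closure Ω, a ≤ m x ∧ m x ≤ b) → ∀ x ∈ closure Ω, a ≤ θ x ∧ θ x ≤ b

/-- GRD: the gradient of the steady state is small if `m` is nearly constant. -/
def GrdStatement : Prop :=
  ∀ (p : ℕ) (Ω : Set (Eu p)) (q : Eu p → ℝ), Dom Ω q → ∃ ε : ℝ, 0 < ε ∧ ε ≤ 1 / 1000 ∧
    (Convex ℝ Ω → ε = 1 / 1000) ∧
    ∀ (m : Eu p → ℝ) (a d : ℝ) (θ : Eu p → ℝ) (θ' : Eu p → Eu p)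
      (θ'' : Eu p → Eu p →L[ℝ] Eu p), ContinuousOn m (closure Ω) → 0 < a → 0 < d →
      Stdy Ω q m d θ θ' θ'' → (∀ x ∈ closure Ω, a ≤ m x ∧ m x ≤ (1 + ε) * a) →
      ∀ x ∈ closure Ω, d * (‖θ' x‖ / θ x) ^ 2 ≤ θ x / 1000

end Pool.Agent.Lib.MP_4fbe7c_an.ND
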