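import Pool.Agent.Lib.MP_4fbe7c_an.ND.Main0
import Pool.Agent.Lib.MP_4fbe7c_an.ND.H64.Thl
import Pool.Agent.Lib.MP_4fbe7c_an.ND.H93.Grd
import Pool.Agent.Lib.MP_4fbe7c_an.ND.H54.Ext

/-!
Project ND (MP_4fbe7c_an), module FIN (helper54): the main statements, proved.
-/

set_option autoImplicit false

namespace Pool.Agent.Lib.MP_4fbe7c_an.ND.Main

theorem thl_st : ThlStatement := H64.thl_st lip_st
theorem lob_st : LobStatement := lob_of thl_st
theorem clo_st : CloNStatement := clo_of thl_st
theorem cri_st : CriNStatement := cri_of thl_st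
theorem grd_st : GrdStatement := ND.grd_st lip_st osc_st ibp_st rng_st

end Pool.Agent.Lib.MP_4fbe7c_an.ND.Main
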