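import Pool.Agent.Lib.MP_4fbe7c_an.ND.H54.Cri
import Pool.Agent.Lib.MP_4fbe7c_an.ND.H24.Str
import Pool.Agent.Lib.MP_4fbe7c_an.ND.H92.Cmp
import Pool.Agent.Lib.MP_4fbe7c_an.ND.H19.Sup
import Pool.Agent.Lib.MP_4fbe7c_an.ND.H19.Mrg
import Pool.Agent.Lib.MP_4fbe7c_an.ND.H31.Low
import Pool.Agent.Lib.MP_4fbe7c_an.ND.H31.Lob
import Pool.Agent.Lib.MP_4fbe7c_an.ND.H31.Ibp
import Pool.Agent.Lib.MP_4fbe7c_an.ND.H31.Dvf
import Pool.Agent.Lib.MP_4fbe7c_an.ND.H9.Rng
import Pool.Agent.Lib.MP_4fbe7c_an.ND.H9.Rtp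
import Pool.Agent.Lib.MP_4fbe7c_an.ND.H14.Dif
import Pool.Agent.Lib.MP_4fbe7c_an.ND.H64.Pre
import Pool.Agent.Lib.MP_4fbe7c_an.ND.H27.Ste
import Pool.Agent.Lib.MP_4fbe7c_an.ND.H27.Bnd
import Pool.Agent.Lib.MP_4fbe7c_an.ND.H65.Lgp
import Pool.Agent.Lib.MP_4fbe7c_an.ND.H65.Mov
import Pool.Agent.Lib.MP_4fbe7c_an.ND.H65.Dis
import Pool.Agent.Lib.MP_4fbe7c_an.ND.H65.Osc
import Pool.Agent.Lib.MP_4fbe7c_an.ND.H91.Bdx
import Pool.Agent.Lib.MP_4fbe7c_an.ND.H78.Mxp
import Pool.Agent.Lib.MP_4fbe7c_an.ND.H38.Nrm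
import Pool.Agent.Lib.MP_4fbe7c_an.ND.H23.Sho
import Pool.Agent.Lib.MP_4fbe7c_an.ND.H33.Rfl
import Pool.Agent.Lib.MP_4fbe7c_an.ND.H45.Lip
import Pool.Agent.Lib.MP_4fbe7c_an.ND.H1.Pos
import Pool.Agent.Lib.MP_4fbe7c_an.ND.H1.Upp
import Pool.Agent.Lib.MP_4fbe7c_an.ND.H20.DV0
import Pool.Agent.Lib.MP_4fbe7c_an.ND.H42.Grn
import Pool.Agent.Lib.MP_4fbe7c_an.ND.H47.Clo
import Pool.Agent.Lib.MP_4fbe7c_an.UL.Main0
import Pool.Agent.Lib.MP_4fbe7c_an.FC.Main0

/-!
Project ND (MP_4fbe7c_an), module FIN (helper54): the main statements, proved (first part).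
-/

set_option autoImplicit false

namespace Pool.Agent.Lib.MP_4fbe7c_an.ND.Main

open Pool.Agent.Lib.MP_4fbe7c_an.FC Pool.Agent.Lib.MP_4fbe7c_an.UL

theorem dv0_st : Dv0Statement := H20.dv0_st
theorem str_st : StrStatement := H24.str_st dv0_st
theorem grn_st : GrnStatement := H42.grn_st dv0_st str_st
theorem ibp_st : IbpStatement := H31.ibp_st grn_st
theorem mxp_st : MxpStatement := H78.mxp
theorem cmp_st : CmpStatement := H92.cmp_st mxp_st
theorem mov_st : MovStatement := H65.mov_st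
theorem pos_st : PosStatement := ND.pos_st mov_st
theorem nrm_st : NrmStatement := H38.nrm_st
theorem bdx_st : BdxStatement := H91.bdx nrm_st
theorem rfl_st : RflStatement := H33.rfl_st
theorem lip_st : LipStatement := H45.lip_st bdx_st rfl_st
theorem sup_st : SupStatement := H19.sup_st
theorem osc_st : OscStatement := H65.osc_st
theorem dif_st : DifStatement := H14.dif_st
theorem lgp_st : LgpNStatement := H65.lgp_st dif_st ibp_st
theorem rtp_st : RtpNStatement := H9.rtp_st dif_st ibp_st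
theorem ste_st : SteNStatement := H27.ste ibp_st
theorem dvf_st : DvfNStatement := H31.dvf_st dif_st grn_st lgp_st rtp_st ste_st
theorem dis_st : DisNStatement :=
  H65.dis_st dvf_st UL.alg_st UL.eta_st UL.wts_st UL.sta_st
theorem low_st : LowStatement := H31.low_st
theorem upp_st : UppStatement := ND.upp_st
theorem pre_st : PreStatement := H64.pre_st cmp_st pos_st
theorem bnd_st : BndStatement := H27.bnd cmp_st lip_st pre_st
theorem sho_st : ShoStatement := H23.sho cmp_st pre_st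
theorem mrg_st : MrgNStatement := H19.mrg_st
theorem rng_st : RngStatement := H9.rng_st mxp_st
theorem lob_of (hThl : ThlStatement) : LobStatement := H31.lob_st sup_st hThl
theorem clo_of (hThl : ThlStatement) : CloNStatement :=
  H47.clo UL.sml_st UL.sta_st sup_st osc_st hThl
theorem cri_of (hThl : ThlStatement) : CriNStatement :=
  H54.cri_st UL.rts_st FC.gtm_st dis_st low_st upp_st (lob_of hThl) (clo_of hThl) pre_st bnd_st
    sho_st mrg_st

end Pool.Agent.Lib.MP_4fbe7c_an.ND.Main
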